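import Pool.Agent.Y574.DN.Open

/-!
# Almost all one-relator pro-p groups have cohomological dimension at most two

For every free pro-`p` group `F` of rank at least two the set of all `r` in `F` with
`cd (F/(r)) ≤ 2` contains a dense open set of full Haar measure.
-/

set_option autoImplicit false

open Topology MeasureTheory

namespace Pool.Agent.Results.MP_de7343_al.AlmostAll

open Pool.Agent.Results.MP_de7343_al.Dense

/-- **For every prime `p` and every free pro-`p` group `F` of rank at least two, the set of all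
`r ∈ F` with `cd (F/(r)) ≤ 2` contains a dense open subset of `F` whose complement has Haar
measure zero.** -/
theorem result : ∀ (p : ℕ), p.Prime → ∀ (X F : Type) [Nontrivial X] [Group F]
    [TopologicalSpace F] [IsTopologicalGroup F] [CompactSpace F] [T2Space F]
    [TotallyDisconnectedSpace F] [MeasurableSpace F] [BorelSpace F] (μ : Measure F)
    [μ.IsHaarMeasure] (ι : X → F), IsFreeProP p ι →
    ∃ O : Set F, IsOpen O ∧ Dense O ∧ μ Oᶜ = 0 ∧ ∀ r ∈ O, cd p (F ⧸ clNormal r) ≤ 2 := by
  intro p hp X F _ _ _ _ _ _ _ _ _ μ _ ι h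
  have : Fact p.Prime := ⟨hp⟩
  obtain ⟨O, h1, h2, h3⟩ := Pool.Agent.Y574.DN.full μ h
  refine ⟨O, h1, ?_, h2, h3⟩
  exact Measure.dense_of_ae (μ := μ) (p := fun x => x ∈ O) (mem_ae_iff.2 h2)

end Pool.Agent.Results.MP_de7343_al.AlmostAll
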